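import Mathlib

namespace Pool.Agent.H.MP_874a88_al
open Function CategoryTheory

/-- Flatness of a left module over an arbitrary ring (equational criterion). -/
def IsFlat (S : Type) [Ring S] (F : Type) [AddCommGroup F] [Module S F] : Prop :=
  ∀ (n : ℕ) (r : Fin n → S) (x : Fin n → F), ∑ i, r i • x i = 0 →
    ∃ (m : ℕ) (a : Fin n → Fin m → S) (y : Fin m → F),
      (∀ i, x i = ∑ j, a i j • y j) ∧ ∀ j, ∑ i, r i * a i j = 0

/-- `Ext¹(F, C) = 0` for every flat left module `F`. -/
def Cotorsion (S : Type) [Ring S] (C : ModuleCat.{0} S) : Prop :=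
  ∀ F : ModuleCat.{0} S, IsFlat S F → ∀ x : Abelian.Ext F C 1, x = 0

variable {k X : Type} [Field k]

theorem indep (χ : X → k) (s : Finset X) (a : s → FreeAlgebra k X)
    (h : ∑ x : s, (FreeAlgebra.ι k x.1 - algebraMap k _ (χ x)) * a x = 0) (y : s) : a y = 0 := by
  classical
  let ρ : FreeAlgebra k X →ₐ[k] Module.End k (FreeAlgebra k X × FreeAlgebra k X) :=
    FreeAlgebra.lift k fun x => (LinearMap.mulLeft k (FreeAlgebra.ι k x) ∘ₗ LinearMap.fst ..).prod
      ((if x = y then LinearMap.fst .. else 0) + χ x • LinearMap.snd ..)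
  have h1 : ∀ r p, (ρ r p).1 = r * p.1 := by
    intro r
    induction r using FreeAlgebra.induction with
    | grade0 c => intro p; simp [Algebra.smul_def]
    | grade1 x => intro p; simp [ρ]
    | mul a b ha hb => intro p; simp [ha, hb, mul_assoc]
    | add a b ha hb => intro p; simp [ha, hb, add_mul]
  have := congrArg (fun r => (ρ r (1, 0)).2) h
  simp only [map_sum, map_mul, map_sub, AlgHom.commutes, LinearMap.sum_apply, Prod.snd_sum,
    Module.End.mul_apply, LinearMap.sub_apply, Module.algebraMap_end_apply, map_zero,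
    LinearMap.zero_apply, Prod.snd_zero, Prod.snd_sub, Prod.smul_snd] at this
  rw [Finset.sum_eq_single y (fun x _ hx => by simp [ρ, Subtype.val_injective.ne hx]) (by simp)]
    at this
  have e := h1 (a y) (1, 0)
  simpa [ρ, FreeAlgebra.lift_ι_apply, e] using this

theorem solve {G : Type} [AddCommGroup G] [Module (FreeAlgebra k X) G] [Module k G]
    [IsScalarTower k (FreeAlgebra k X) G] (hG : IsFlat (FreeAlgebra k X) G) (χ : X → k)
    (c : X → G →ₗ[k] k) : ∃ φ : G →ₗ[k] k, ∀ x g, c x g = φ (FreeAlgebra.ι k x • g) - χ x * φ g := by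
  let δ : (X →₀ G) →ₗ[k] G := Finsupp.lsum k fun x =>
    DistribSMul.toLinearMap k G (FreeAlgebra.ι k x - algebraMap k _ (χ x))
  have hδ : LinearMap.ker δ = ⊥ := by
    refine LinearMap.ker_eq_bot'.2 fun v hv => ?_
    let e := v.support.equivFin.symm
    obtain ⟨m, a, y, h1, h2⟩ := hG _ (fun i => FreeAlgebra.ι k (e i).1 - algebraMap k _ (χ (e i)))
      (fun i => v (e i)) (by
        rw [e.sum_comp fun x => (FreeAlgebra.ι k x.1 - algebraMap k _ (χ x)) • v x,
          Finset.sum_coe_sort v.support fun x => (FreeAlgebra.ι k x - algebraMap k _ (χ x)) • v x]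
        exact hv)
    ext x
    by_contra hx
    have hx' : x ∈ v.support := Finsupp.mem_support_iff.2 hx
    have := h1 (e.symm ⟨x, hx'⟩)
    rw [e.apply_symm_apply, Finset.sum_eq_zero fun j _ => by
      rw [indep χ v.support (fun x => a (e.symm x) j) (by
        rw [← e.sum_comp]; simpa using h2 j) ⟨x, hx'⟩, zero_smul]] at this
    exact hx this
  obtain ⟨l, hl⟩ := δ.exists_leftInverse_of_injective hδ
  refine ⟨Finsupp.lsum k c ∘ₗ l, fun x g => ?_⟩
  have := congrArg (Finsupp.lsum k c) (LinearMap.congr_fun hl (Finsupp.single x g))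
  have e : δ (Finsupp.single x g) = FreeAlgebra.ι k x • g - χ x • g := by simp [δ, sub_smul]
  rw [LinearMap.comp_apply, e, map_sub, map_sub, l.map_smul (χ x), map_smul _ (χ x),
    LinearMap.id_apply,
    Finsupp.lsum_single] at this
  exact this.symm

variable {Ω : Type}

abbrev RR (k Ω : Type) [Field k] : Type := FreeAlgebra k (Ω → k)

def ff (k Ω : Type) [Field k] : RR k Ω →ₐ[k] (Ω → k) := FreeAlgebra.lift k id

theorem lift_flat {G I Q : Type} [AddCommGroup G] [AddCommGroup I] [AddCommGroup Q]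
    [Module (RR k Ω) G] [Module (RR k Ω) I] [Module (RR k Ω) Q] (hG : IsFlat (RR k Ω) G)
    (q : (Ω → k) →+ I) (hq : ∀ r a, q (ff k Ω r * a) = r • q a) (π : I →ₗ[RR k Ω] Q)
    (hπ : Surjective π) (ex : ∀ i, π i = 0 ↔ ∃ a, q a = i) (y : G →ₗ[RR k Ω] Q) :
    ∃ s : G →ₗ[RR k Ω] I, π ∘ₗ s = y := by
  let _ : Module k G := Module.compHom G (algebraMap k (RR k Ω))
  let _ : Module k I := Module.compHom I (algebraMap k (RR k Ω))
  let _ : Module k Q := Module.compHom Q (algebraMap k (RR k Ω))
  have : IsScalarTower k (RR k Ω) G := .of_compHom ..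
  have : IsScalarTower k (RR k Ω) I := .of_compHom ..
  have : IsScalarTower k (RR k Ω) Q := .of_compHom ..
  let q' : (Ω → k) →ₗ[k] I := ⟨q, fun c a => by
    have := hq (algebraMap k _ c) a
    rwa [AlgHom.commutes, ← Algebra.smul_def] at this⟩
  obtain ⟨s₀, hs⟩ := Module.projective_lifting_property (π.restrictScalars k)
    (y.restrictScalars k) hπ
  have hs' : ∀ g, π (s₀ g) = y g := LinearMap.congr_fun hs
  obtain ⟨τ, hτ⟩ := q'.rangeRestrict.exists_rightInverse_of_surjective q'.range_rangeRestrict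
  let c : (Ω → k) → G →ₗ[k] LinearMap.range q' := fun x =>
    (DistribSMul.toLinearMap k I (FreeAlgebra.ι k x) ∘ₗ s₀ -
      s₀ ∘ₗ DistribSMul.toLinearMap k G (FreeAlgebra.ι k x)).codRestrict _
        fun g => (ex _).1 (by simp [hs'])
  choose φ hφ using fun ω => solve hG (fun x => x ω) fun x => LinearMap.proj ω ∘ₗ τ ∘ₗ c x
  let s := s₀ + q' ∘ₗ LinearMap.pi φ
  refine ⟨⟨s.toAddHom, fun r => ?_⟩, LinearMap.ext fun g => ?_⟩
  · change ∀ g, s (r • g) = r • s g
    induction r using FreeAlgebra.induction with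
    | grade0 c => intro g; simp
    | grade1 x =>
      intro g
      have h1 : q (τ (c x g)) = FreeAlgebra.ι k x • s₀ g - s₀ (FreeAlgebra.ι k x • g) :=
        congrArg Subtype.val (LinearMap.congr_fun hτ (c x g))
      have h2 : τ (c x g) = LinearMap.pi φ (FreeAlgebra.ι k x • g) -
          ff k Ω (FreeAlgebra.ι k x) * LinearMap.pi φ g := funext fun ω => by
        simpa [ff] using hφ ω x g
      rw [h2, map_sub, hq] at h1
      change s₀ _ + q _ = _ • (s₀ g + q _)
      rw [smul_add, eq_add_of_sub_eq h1]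
      abel
    | mul a b ha hb => intro g; rw [mul_smul, mul_smul, ha, hb]
    | add a b ha hb => intro g; rw [add_smul, add_smul, map_add, ha, hb]
  · change π (s₀ g + q _) = y g
    rw [map_add, hs', (ex _).2 ⟨_, rfl⟩, add_zero]

theorem cot_R (N : Submodule (Ω → k) (Ω → k)) : Cotorsion (RR k Ω)
    ((ModuleCat.restrictScalars (ff k Ω).toRingHom).obj (ModuleCat.of (Ω → k) ((Ω → k) ⧸ N))) := by
  intro G hG x
  let C := (ModuleCat.restrictScalars (ff k Ω).toRingHom).obj (ModuleCat.of (Ω → k) ((Ω → k) ⧸ N))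
  let S := ShortComplex.mk (Injective.ι C) (Limits.cokernel.π _) (Limits.cokernel.condition _)
  have hS : S.ShortExact := { exact := ShortComplex.exact_cokernel _ }
  obtain ⟨x₃, hx⟩ := Abelian.Ext.covariant_sequence_exact₁ G hS x
    (Abelian.Ext.eq_zero_of_injective _) rfl
  obtain ⟨y, rfl⟩ := (Abelian.Ext.mk₀_bijective _ _).2 x₃
  have ex := (ShortComplex.ShortExact.moduleCat_exact_iff_function_exact S).1 hS.exact
  obtain ⟨s, hs⟩ := lift_flat hG (S.f.hom.toAddMonoidHom.comp N.mkQ.toAddMonoidHom)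
    (fun r a => S.f.hom.map_smul r (N.mkQ a)) S.g.hom hS.moduleCat_surjective_g
    (fun i => (ex i).trans ⟨fun ⟨c, h⟩ => let ⟨a, e⟩ := N.mkQ_surjective c; ⟨a, (congrArg S.f.hom e).trans h⟩,
      fun ⟨a, h⟩ => ⟨_, h⟩⟩) y.hom
  have : y = ModuleCat.ofHom s ≫ S.g := ModuleCat.hom_ext hs.symm
  rw [← hx, this, ← Abelian.Ext.mk₀_comp_mk₀, Abelian.Ext.comp_assoc_of_second_deg_zero,
    hS.comp_extClass, Abelian.Ext.comp_zero]

theorem flat_pi (F : Type) [AddCommGroup F] [Module (Ω → k) F] : IsFlat (Ω → k) F := by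
  classical
  intro n r x h
  have : ∀ ω, ∃ v : Fin n → k, ∀ j, (∑ i, r i ω * v i) * r j ω = r j ω := fun ω => by
    by_cases h : ∃ i, r i ω ≠ 0
    · obtain ⟨i, hi⟩ := h
      exact ⟨Pi.single i (r i ω)⁻¹, fun j => by simp [Pi.single_apply, hi]⟩
    · push Not at h
      exact ⟨0, fun j => by simp [h]⟩
  choose v hv using this
  refine ⟨n, fun i j => (if i = j then 1 else 0) - (fun ω => v ω i) * r j, x, fun i => ?_,
    fun j => funext fun ω => ?_⟩
  · simp [sub_smul, mul_smul, ← Finset.smul_sum, h]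
  · simp only [mul_sub, Finset.sum_sub_distrib, mul_ite, mul_one, mul_zero, Finset.sum_ite_eq',
      Finset.mem_univ, if_true]
    simp only [Pi.sub_apply, Finset.sum_apply, Pi.mul_apply, ← mul_assoc,
      ← Finset.sum_mul, hv, sub_self, Pi.zero_apply]

theorem extend {A : Type} [Ring A] {C F : Type} [AddCommGroup C] [Module A C] [AddCommGroup F]
    [Module A F] (h : Cotorsion A (ModuleCat.of A C)) (φ : F →ₗ[A] A)
    (hf : IsFlat A (A ⧸ LinearMap.range φ)) (g : F →ₗ[A] C)
    (hg : LinearMap.ker φ ≤ LinearMap.ker g) : ∃ c : C, ∀ v, g v = φ v • c := by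
  let S := ShortComplex.mk (ModuleCat.ofHom (LinearMap.range φ).subtype)
    (ModuleCat.ofHom (LinearMap.range φ).mkQ) (by ext ⟨_, hx⟩; simpa using hx)
  have hS : S.ShortExact := ModuleCat.shortComplex_shortExact S
    (LinearMap.exact_subtype_mkQ _) (Submodule.injective_subtype _) (Submodule.mkQ_surjective _)
  obtain ⟨x₂, hx⟩ := Abelian.Ext.contravariant_sequence_exact₁ hS (ModuleCat.of A C)
    (Abelian.Ext.mk₀ (ModuleCat.ofHom ((LinearMap.ker φ).liftQ g hg ∘ₗ
      φ.quotKerEquivRange.symm.toLinearMap))) rfl (h _ hf _)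
  obtain ⟨y, rfl⟩ := (Abelian.Ext.mk₀_bijective _ _).2 x₂
  rw [Abelian.Ext.mk₀_comp_mk₀] at hx
  refine ⟨y.hom 1, fun v => ?_⟩
  have := LinearMap.congr_fun (congrArg ModuleCat.Hom.hom ((Abelian.Ext.mk₀_bijective _ _).1 hx))
    ⟨φ v, v, rfl⟩
  rw [← map_smul, smul_eq_mul, mul_one]
  refine (this.trans ?_).symm
  change (LinearMap.ker φ).liftQ g hg (φ.quotKerEquivRange.symm ⟨φ v, v, rfl⟩) = _
  rw [LinearMap.quotKerEquivRange_symm_apply_image, Submodule.mkQ_apply, Submodule.liftQ_apply]

theorem card_le {T : Type} (N : Submodule (Ω → k) (Ω → k))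
    (h : Cotorsion (Ω → k) (ModuleCat.of (Ω → k) ((Ω → k) ⧸ N))) (e : T → Ω → k)
    (h1 : ∀ t, e t * e t = e t) (h2 : ∀ s t, s ≠ t → e s * e t ∈ N) (h3 : ∀ t, e t ∉ N) :
    Cardinal.mk (Set T) ≤ Cardinal.mk (Ω → k) := by
  classical
  have key : ∀ S : Set T, ∃ c : (Ω → k) ⧸ N,
      ∀ t, (if t ∈ S then N.mkQ (e t) else 0) = e t • c := fun S => by
    obtain ⟨c, hc⟩ := extend h (Finsupp.linearCombination (Ω → k) e) (flat_pi _)
      (Finsupp.linearCombination (Ω → k) fun t => if t ∈ S then N.mkQ (e t) else 0) fun b hb => by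
        have : ∀ s, b s • N.mkQ (e s) = 0 := fun s => by
          have := congrArg (fun a => N.mkQ (e s * a)) (LinearMap.mem_ker.1 hb)
          simp only [Finsupp.linearCombination_apply, Finsupp.sum, Finset.mul_sum, map_sum,
            mul_zero, map_zero, smul_eq_mul] at this
          rw [Finset.sum_eq_single s (fun t _ ht => by
            rw [mul_left_comm, ← smul_eq_mul, map_smul, Submodule.mkQ_apply,
              (Submodule.Quotient.mk_eq_zero N).2 (h2 s t ht.symm), smul_zero])
            (fun hs => by simp [Finsupp.notMem_support_iff.1 hs])] at this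
          rwa [mul_left_comm, h1, ← smul_eq_mul, map_smul] at this
        rw [LinearMap.mem_ker, Finsupp.linearCombination_apply, Finsupp.sum]
        refine Finset.sum_eq_zero fun t _ => ?_
        split_ifs
        exacts [this t, smul_zero _]
    exact ⟨c, fun t => by simpa using hc (Finsupp.single t 1)⟩
  choose c hc using key
  refine (Cardinal.mk_le_of_injective (f := c) fun S S' hS => Set.ext fun t => ?_).trans
    (Cardinal.mk_le_of_surjective N.mkQ_surjective)
  have := (hc S t).trans (hS ▸ (hc S' t).symm)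
  have hn : N.mkQ (e t) ≠ 0 := fun h => h3 t ((Submodule.Quotient.mk_eq_zero N).1 h)
  by_cases a : t ∈ S <;> by_cases b : t ∈ S' <;> simp_all

/-- The ideal of finitely supported functions. -/
def fin (k Ω : Type) [Field k] : Submodule (Ω → k) (Ω → k) where
  carrier := {a | (support a).Finite}
  add_mem' ha hb := (ha.union hb).subset (support_add _ _)
  zero_mem' := by simp
  smul_mem' c a ha := ha.subset (support_mul_subset_right c a)

theorem not_cot : ¬ Cotorsion (List Bool → ZMod 2)
    (ModuleCat.of _ ((List Bool → ZMod 2) ⧸ fin (ZMod 2) (List Bool))) := by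
  classical
  intro h
  let P : (ℕ → Bool) → ℕ → List Bool := fun t n => List.ofFn fun i : Fin n => t i
  have hP : ∀ t n, (P t n).length = n := fun t n => by simp [P]
  have := card_le _ h (fun t l => if l ∈ Set.range (P t) then 1 else 0)
    (fun t => funext fun l => by simp only [Pi.mul_apply]; split_ifs <;> simp)
    (fun s t hst => by
      obtain ⟨j, hj⟩ := Function.ne_iff.1 hst
      refine (List.finite_length_le Bool j).subset fun l hl => ?_
      simp only [mem_support, Pi.mul_apply, ne_eq, mul_ite, mul_one, mul_zero, ite_eq_right_iff,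
        one_ne_zero, imp_false, Classical.not_imp, not_not] at hl
      obtain ⟨⟨n, rfl⟩, m, hm⟩ := hl
      obtain rfl : m = n := by rw [← hP s m, hm, hP]
      rw [Set.mem_ofPred_eq, hP]
      by_contra hlt
      exact hj (congrFun (List.ofFn_injective hm) ⟨j, by omega⟩))
    (fun t ht => Set.infinite_range_of_injective (f := P t)
      (fun m n e => by rw [← hP t m, e, hP]) (Set.Finite.subset ht fun l hl => by simpa using hl))
  exact (Cardinal.cantor Cardinal.continuum).not_ge (by simpa using this)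

end Pool.Agent.H.MP_874a88_al
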